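import Pool.Agent.helper53.ORT.Spec

/-!
# Project ort (MP_561ff4_al): row D1 (orthogonal bases with any norms)
-/

set_option autoImplicit false

namespace Pool.Agent.ORT

open Module Pool.Agent.GS

private lemma D1_sq {F : Type} [Field F] [Finite F] (hF : ringChar F ≠ 2) {a b : F} (ha : ¬ IsSquare a)
    (hb : ¬ IsSquare b) : IsSquare (a * b) := by
  classical
  haveI := Fintype.ofFinite F
  have ha0 : a ≠ 0 := fun h => ha (h ▸ IsSquare.zero)
  have hb0 : b ≠ 0 := fun h => hb (h ▸ IsSquare.zero)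
  rw [← quadraticChar_one_iff_isSquare (mul_ne_zero ha0 hb0), map_mul,
    (quadraticChar_neg_one_iff_not_isSquare (F := F)).2 ha,
    (quadraticChar_neg_one_iff_not_isSquare (F := F)).2 hb]
  norm_num

/-- **D1**. -/
theorem D1 (kj : KJ_stmt) (dg : Pool.Agent.GS.DG_stmt) (dd : Pool.Agent.GS.DD_stmt)
    (hbf : Pool.Agent.GS.BF_stmt) : D1_stmt := by
  intro F V K ι instF instFin instAdd instMod instK instAlg instFinK instFD instFι instDι B hch hB
    k hk β σ j hD hcard c hc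
  let β₀ : Basis ι F K := (Module.finBasis F K).reindex (Fintype.equivFinOfCardEq hcard).symm
  have hchK : ringChar K ≠ 2 := by
    rw [← Algebra.ringChar_eq F K]
    exact hch
  have h1 := (dd β₀ hch 1 one_ne_zero).1
  obtain ⟨α, hα, hsq⟩ : ∃ α : K, α ≠ 0 ∧ IsSquare (dt (bf F K α) β₀ * ∏ i, c i) := by
    by_cases hs : IsSquare (dt (bf F K 1) β₀ * ∏ i, c i)
    · exact ⟨1, one_ne_zero, hs⟩
    · obtain ⟨α, hα⟩ := FiniteField.exists_nonsquare hchK
      have hα0 : α ≠ 0 := fun h => hα (h ▸ IsSquare.zero)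
      refine ⟨α, hα0, ?_⟩
      have h2 : ¬ IsSquare (dt (bf F K α) β₀ * dt (bf F K 1) β₀) := fun h =>
        hα ((dd β₀ hch α hα0).2.1 h)
      obtain ⟨t, ht⟩ := D1_sq hch h2 hs
      refine ⟨t / dt (bf F K 1) β₀, ?_⟩
      field_simp
      linear_combination ht
  obtain ⟨u, hu⟩ := (dg (bf F K α) hch (hbf.1 α hα) β₀ c hc hsq).1
  obtain ⟨j', hj', hjj⟩ := kj B hch hB k hk β σ j hD α⁻¹ (inv_ne_zero hα)
  refine ⟨α⁻¹, j', u, hj', hjj, ?_⟩
  intro i i'
  rw [hj'.f1]
  exact hu i i'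

end Pool.Agent.ORT
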